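import Mathlib
import Pool.Agent.H.MP_fc2771_gt.Main

set_option autoImplicit false

namespace Pool.Agent.Results.MP_fc2771_gt.Group

open Set MeasureTheory Pool.Agent.H.MP_fc2771_gt

theorem result : ∃ (G : Type) (_ : AddCommGroup G) (_ : MetricSpace G),
    (∀ x y z : G, dist (x + z) (y + z) = dist x y) ∧ TopologicalSpace.SeparableSpace G ∧
    (∀ (x y : G) (a b : ℝ), 0 < a → 0 < b → a + b = dist x y → ∃! z, dist x z = a ∧ dist z y = b) ∧
    ¬ ∃ H : AddSubgroup G, Dense (H : Set G) ∧ IsSigmaCompact (H : Set G) ∧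
      ∀ f : H → H, f.Bijective → (∀ x y, dist (f x) (f y) ≤ dist x y) →
        ∀ x y, dist (f x) (f y) = dist x y := by
  refine ⟨ℝ, inferInstance, inferInstance, fun x y z => dist_add_right x y z, inferInstance,
    fun x y a b ha hb h => ?_, fun ⟨H, h0, ⟨K, h1, h2⟩, h3⟩ => ?_⟩
  · simp only [Real.dist_eq] at h ⊢
    exact ⟨if x ≤ y then x + a else x - a, by grind, fun z hz => by grind⟩
  · obtain ⟨f, h4, h5, h6⟩ := analytic h0 (h2 ▸ .iUnion fun n => (h1 n).isClosed.analyticSet)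
    exact h6 (h3 f h4 h5)

end Pool.Agent.Results.MP_fc2771_gt.Group
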